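import Pool.Agent.H36.ENR.Stmts2

/-!
Board enr, row CSY: the number of Sylow subgroups of PSL(2,q) in the characteristic is q + 1.
-/

set_option autoImplicit false

namespace Pool.ENR

open Pool.Agent.H81.ENG Pool.Agent.H55.NEU

/-- the upper triangular matrices -/
def csyB (F : Type) [Field F] : Subgroup (SL2 F) where
  carrier := {M | M 1 0 = 0}
  one_mem' := rfl
  mul_mem' := by
    intro M N hM hN
    have hM' : M 1 0 = 0 := hM
    have hN' : N 1 0 = 0 := hN
    show (M * N) 1 0 = 0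
    rw [mul_10, hM', hN']
    ring
  inv_mem' := by
    intro M hM
    have hM' : M 1 0 = 0 := hM
    show (M⁻¹ : SL2 F) 1 0 = 0
    rw [inv_eq]
    show -(M 1 0) = 0
    rw [hM', neg_zero]

theorem csy_card_B (F : Type) [Field F] [Finite F] :
    Nat.card (csyB F) = (Nat.card F - 1) * Nat.card F := by
  let e : Fˣ × F → csyB F := fun x =>
    ⟨mk2 (x.1 : F) x.2 0 ((x.1⁻¹ : Fˣ) : F) (by rw [Units.mul_inv]; ring), rfl⟩
  have he : Function.Bijective e := by
    constructor
    · rintro ⟨a, b⟩ ⟨a', b'⟩ h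
      have h1 : (e (a, b) : SL2 F) = (e (a', b') : SL2 F) := congrArg Subtype.val h
      have h2 : (e (a, b) : SL2 F) 0 0 = (e (a', b') : SL2 F) 0 0 := by rw [h1]
      have h3 : (e (a, b) : SL2 F) 0 1 = (e (a', b') : SL2 F) 0 1 := by rw [h1]
      have h4 : (a : F) = (a' : F) := h2
      have h5 : b = b' := h3
      rw [Units.ext h4, h5]
    · rintro ⟨M, hM⟩
      have hM' : M 1 0 = 0 := hM
      have hd := sl_det M
      rw [hM', mul_zero, sub_zero] at hd
      refine ⟨(Units.mkOfMulEqOne (M 0 0) (M 1 1) hd, M 0 1), Subtype.ext ?_⟩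
      have h11 : M 1 1 = ((Units.mkOfMulEqOne (M 0 0) (M 1 1) hd)⁻¹ : Fˣ) := by
        rw [Units.val_inv_eq_inv_val]
        exact eq_inv_of_mul_eq_one_right hd
      exact sl_ext rfl rfl hM'.symm h11.symm
  rw [← Nat.card_congr (Equiv.ofBijective e he), Nat.card_prod, Nat.card_units]

theorem csy_index_B (F : Type) [Field F] [Finite F] : (csyB F).index = Nat.card F + 1 := by
  have h1 := (csyB F).card_mul_index
  rw [csy_card_B, card_SL2] at h1
  have hq : 1 < Nat.card F := Finite.one_lt_card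
  obtain ⟨m, hm⟩ : ∃ m, Nat.card F = m + 2 := ⟨Nat.card F - 2, by omega⟩
  rw [hm] at h1 ⊢
  have h2 : m + 2 - 1 = m + 1 := rfl
  have h3 : (m + 2) ^ 2 - 1 = (m + 1) * (m + 3) := by
    have : (m + 2) ^ 2 = (m + 1) * (m + 3) + 1 := by ring
    omega
  rw [h2, h3] at h1
  have h4 : (m + 1) * (m + 2) * (csyB F).index = (m + 1) * (m + 2) * (m + 2 + 1) := by
    rw [h1]
    ring
  exact Nat.eq_of_mul_eq_mul_left (by positivity) h4

theorem csy_comap (F : Type) [Field F] : (TT F).comap pr = csyB F := by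
  ext M
  constructor
  · rintro ⟨N, hN, hMN⟩
    obtain ⟨r, hr, h⟩ := pr_eq_iff.1 hMN
    show M 1 0 = 0
    rw [h 1 0, hN, mul_zero]
  · intro hM
    exact ⟨M, hM, rfl⟩

theorem csy_normalizer (F : Type) [Field F] :
    Subgroup.normalizer ((UU F : Subgroup (PS F)) : Set (PS F)) = TT F := by
  ext g
  obtain ⟨M, rfl⟩ := pr_surj g
  rw [Subgroup.mem_normalizer_iff]
  constructor
  · intro h
    have h1 : pr (uu (1 : F)) ∈ UU F := ⟨1, rfl⟩
    have h2 := (h _).1 h1
    rw [← map_mul, ← map_inv, ← map_mul] at h2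
    have h3 := (pr_mem_UU.1 h2).1
    rw [conj_uu, mk2_10, mul_one, neg_eq_zero, mul_self_eq_zero] at h3
    exact ⟨M, h3, rfl⟩
  · rintro ⟨N, hN, hMN⟩
    have key : ∀ (K : SL2 F), K 1 0 = 0 → ∀ x : PS F, x ∈ UU F → pr K * x * (pr K)⁻¹ ∈ UU F := by
      rintro K hK _ ⟨x, rfl⟩
      rw [← map_inv, ← map_mul, ← map_mul, pr_mem_UU, conj_uu, mk2_10, mk2_00, mk2_11, hK]
      exact ⟨by ring, by ring⟩
    have hNi : (N⁻¹ : SL2 F) 1 0 = 0 := by
      rw [inv_eq]
      show -(N 1 0) = 0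
      rw [hN, neg_zero]
    intro x
    rw [← hMN]
    constructor
    · exact key N hN x
    · intro hx
      have h1 := key N⁻¹ hNi _ hx
      have h2 : pr N⁻¹ * (pr N * x * (pr N)⁻¹) * (pr N⁻¹)⁻¹ = x := by
        rw [map_inv]
        group
      rwa [h2] at h1

/-- row CSY -/
theorem csy_thm : CSYStmt := by
  intro F _ _ r f _ hf hq
  obtain ⟨P, hP⟩ := sylow_of_card hf hq (UU F) card_UU
  have h1 := P.card_eq_index_normalizer
  have h2 : Subgroup.normalizer ((P : Subgroup (PS F)) : Set (PS F)) = TT F := by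
    rw [hP]
    exact csy_normalizer F
  rw [h1]
  have h3 : (Subgroup.normalizer ((P : Subgroup (PS F)) : Set (PS F))).index = Nat.card F + 1 := by
    rw [h2, ← Subgroup.index_comap_of_surjective (TT F) (f := (pr : SL2 F →* PS F))
      (fun g => pr_surj g), csy_comap, csy_index_B]
  exact h3

end Pool.ENR
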