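import Pool.Agent.H14.ENR.Stmts4

set_option autoImplicit false

namespace Pool.ENR

theorem iot_thm : IOTStmt := by
  intro F _ r _ _ h4
  have h1 : IsSquare (-1 : ZMod r) := ZMod.exists_sq_eq_neg_one_iff.2 (by omega)
  obtain ⟨y, hy⟩ := h1
  refine ⟨ZMod.castHom (dvd_refl r) F y, ?_, ?_⟩
  · rw [← map_mul, ← hy, map_neg, map_one]
  · intro φ
    have h2 : (φ : F →+* F).comp (ZMod.castHom (dvd_refl r) F) = ZMod.castHom (dvd_refl r) F :=
      RingHom.ext_zmod _ _
    exact RingHom.congr_fun h2 y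

end Pool.ENR
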